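import Pool.Agent.H30.SY.Stm5
import Pool.Agent.H69.FP.D
import Pool.Agent.H59.SY.FAR

/-!
# Midpoints which bisect keep the passage times near the median
-/

set_option autoImplicit false

open MeasureTheory ProbabilityTheory Finset Filter
open scoped Topology Pointwise

namespace Pool.Agent.H69.SY

open Q70.Fp Q69.FL Pool.Agent.H69.FP Pool.Agent.H30.SY

lemma TB_set_sh (R : ℕ) (c v : ℤ × ℤ) {A : Set ℝ} (hA : MeasurableSet A) :
    nu.real {w | TB (pw w) R c (c + v) ∈ A} = nu.real {w | TB (pw w) R 0 v ∈ A} := by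
  have hm : Measurable (sh c) := measurable_pi_lambda _ fun e => measurable_pi_apply _
  have e1 := map_measureReal_apply (μ := nu) hm ((measurable_TB R 0 v) hA)
  rw [map_sh] at e1
  rw [show {w : Ed → ℝ | TB (pw w) R 0 v ∈ A} = (fun w => TB (pw w) R 0 v) ⁻¹' A from rfl, e1]
  congr 1
  ext w
  simp only [Set.mem_ofPred_eq, Set.mem_preimage, Q69.FM.TB_sh, zero_add]
  rw [add_comm c v]

lemma indep_set (J k : ℕ) (v : ℤ × ℤ) {A : Set ℝ} (hA : MeasurableSet A) (c : ℕ → ℤ × ℤ)
    (hc : ∀ i ∈ range J, ∀ j ∈ range J, i ≠ j → 2 * (66 * k) < dd (c i) (c j)) :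
    nu.real {w | ∀ i ∈ range J, TB (pw w) (66 * k) (c i) (c i + v) ∈ A} =
      (nu.real {w | TB (pw w) (66 * k) 0 v ∈ A}) ^ J := by
  classical
  have hm : ∀ i, MeasurableSet {w : Ed → ℝ | TB (pw w) (66 * k) (c i) (c i + v) ∈ A} := fun i =>
    (measurable_TB _ _ _) hA
  let f : ℕ → (Ed → ℝ) → ℝ := fun i w => if TB (pw w) (66 * k) (c i) (c i + v) ∈ A then 1 else 0
  have hf : ∀ i, f i = {w : Ed → ℝ | TB (pw w) (66 * k) (c i) (c i + v) ∈ A}.indicator 1 := by
    intro i
    ext w
    simp only [f, Set.indicator, Set.mem_ofPred_eq, Pi.one_apply]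
  have hfm : ∀ i, Measurable (f i) := by
    intro i
    rw [hf i]
    exact measurable_one.indicator (hm i)
  have hms : MeasurableSet {w : Ed → ℝ | ∀ i ∈ range J, TB (pw w) (66 * k) (c i) (c i + v) ∈ A} := by
    have : {w : Ed → ℝ | ∀ i ∈ range J, TB (pw w) (66 * k) (c i) (c i + v) ∈ A} =
        ⋂ i ∈ range J, {w : Ed → ℝ | TB (pw w) (66 * k) (c i) (c i + v) ∈ A} := by
      ext w; simp
    rw [this]
    exact Finset.measurableSet_biInter _ fun i _ => hm i
  have key := integral_prod_disj (range J) (fun i => be (66 * k) (c i)) f hfm (by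
      intro i w w' hww
      have := TB_dep (y := c i + v) hww
      simp only [f, this]) (fun i hi j hj hij => be_disj (hc i hi j hj hij))
  have e1 : ∀ i, ∫ w, f i w ∂nu = nu.real {w | TB (pw w) (66 * k) 0 v ∈ A} := by
    intro i
    rw [hf i, integral_indicator_one (hm i), TB_set_sh _ _ _ hA]
  have e2 : ∫ w, ∏ i ∈ range J, f i w ∂nu =
      nu.real {w | ∀ i ∈ range J, TB (pw w) (66 * k) (c i) (c i + v) ∈ A} := by
    rw [← integral_indicator_one hms]
    refine integral_congr_ae (Eventually.of_forall fun w => ?_)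
    show ∏ i ∈ range J, f i w = _
    simp only [f, Finset.prod_boole, Set.indicator, Set.mem_ofPred_eq, Pi.one_apply]
  rw [e2] at key
  rw [key]
  simp only [e1, Finset.prod_const, Finset.card_range]

lemma dd_nsm (t : ℕ) (v : ℤ × ℤ) : dd 0 (((t : ℕ) : ℤ) • v) = t * dd 0 v := by
  show ((t:ℤ) * v.1 - 0).natAbs + ((t:ℤ) * v.2 - 0).natAbs =
    t * ((v.1 - 0).natAbs + (v.2 - 0).natAbs)
  rw [sub_zero, sub_zero, sub_zero, sub_zero, Int.natAbs_mul, Int.natAbs_mul, Int.natAbs_natCast]
  ring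

theorem t_U1 (hREV : S_REV) : S_U1 := by
  intro v x J n s m hk hs hn h1 h2
  obtain ⟨k, hkk⟩ : ∃ k, k = dd 0 v := ⟨_, rfl⟩
  rw [← hkk] at hk hn ⊢
  have hxv : ∀ j : ℕ, dd 0 (x + (j:ℤ) • v) ≤ dd 0 x + j * k := by
    intro j
    induction j with
    | zero => simp
    | succ j ih =>
      have e1 : x + ((j + 1 : ℕ) : ℤ) • v = (x + (j:ℤ) • v) + v := by
        push_cast
        rw [add_smul, one_smul]
        abel
      have e2 := dd_tri 0 (x + (j:ℤ) • v) ((x + (j:ℤ) • v) + v)
      have e3 := dd_add 0 v (x + (j:ℤ) • v)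
      rw [zero_add, add_comm v] at e3
      rw [e1]
      have e4 : (j + 1) * k = j * k + k := by ring
      omega
  have hstep : ∀ w : Ed → ℝ, BS (pw w) n s → ∀ j ≤ 133 * J,
      |TT (pw w) (x + (j:ℤ) • v) (x + (j:ℤ) • v + v) -
        TT (pw w) (x + ((j+1 : ℕ):ℤ) • v) (x + ((j+1 : ℕ):ℤ) • v + v)| ≤ s := by
    intro w hw j hj
    obtain ⟨y, hy⟩ : ∃ y, y = x + (j:ℤ) • v := ⟨_, rfl⟩
    have hy1 : x + ((j + 1 : ℕ) : ℤ) • v = y + v := by
      rw [hy]
      push_cast
      rw [add_smul, one_smul]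
      abel
    have hy2 : x + ((j + 2 : ℕ) : ℤ) • v = y + v + v := by
      rw [hy]
      push_cast
      rw [add_smul, two_smul]
      abel
    rw [hy1, ← hy]
    have hj1 : j * k ≤ 133 * J * k := Nat.mul_le_mul_right _ hj
    have hn' : dd 0 x + 133 * J * k + 2 * k ≤ n := by
      calc dd 0 x + 133 * J * k + 2 * k = dd 0 x + (133 * J + 2) * k := by ring
        _ ≤ n := hn
    have b1 : y ∈ ball n 0 := by
      rw [mem_ball]
      have := hxv j
      rw [← hy] at this
      omega
    have b2 : y + v + v ∈ ball n 0 := by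
      rw [mem_ball]
      have := hxv (j + 2)
      rw [hy2] at this
      have e : (j + 2) * k = j * k + 2 * k := by ring
      omega
    have b3 : v ∈ ball n 0 := by rw [mem_ball]; omega
    have b4 : -v ∈ ball n 0 := by
      rw [mem_ball]
      have : dd 0 (-v) = dd 0 v := by simp [dd]
      omega
    have g1 := hw y b1 v b3
    have g2 := hw (y + v + v) b2 (-v) b4
    rw [show y + v + v + -v + -v = y by abel, show y + v + v + -v = y + v by abel, hREV _ (y + v + v) y,
      hREV _ (y + v + v) (y + v)] at g2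
    rw [abs_le] at g1 g2 ⊢
    constructor <;> linarith [g1.1, g1.2, g2.1, g2.2]
  have htel : ∀ w : Ed → ℝ, BS (pw w) n s → ∀ j ≤ 133 * J,
      |TT (pw w) x (x + v) - TT (pw w) (x + (j:ℤ) • v) (x + (j:ℤ) • v + v)| ≤ j * s := by
    intro w hw j
    induction j with
    | zero => intro _; simp
    | succ j ih =>
      intro hj
      have e1 := ih (by omega)
      have e2 := hstep w hw j (by omega)
      rw [abs_le] at e1 e2 ⊢
      push_cast at e2 ⊢
      constructor <;> nlinarith [e1.1, e1.2, e2.1, e2.2]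
  let c : ℕ → ℤ × ℤ := fun i => x + ((133 * i : ℕ) : ℤ) • v
  have hc : ∀ i ∈ range J, ∀ j ∈ range J, i ≠ j → 2 * (66 * k) < dd (c i) (c j) := by
    have key : ∀ i j : ℕ, i < j → 2 * (66 * k) < dd (c i) (c j) := by
      intro i j hij
      have e1 : c j = (((133 * j : ℕ) : ℤ) - ((133 * i : ℕ) : ℤ)) • v + c i := by
        simp only [c]
        rw [sub_smul]
        abel
      have e2 := dd_add 0 ((((133 * j : ℕ) : ℤ) - ((133 * i : ℕ) : ℤ)) • v) (c i)
      rw [zero_add] at e2
      rw [e1, e2]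
      have e3 : (((133 * j : ℕ) : ℤ) - ((133 * i : ℕ) : ℤ)) = ((133 * (j - i) : ℕ) : ℤ) := by
        push_cast [Nat.cast_sub hij.le]
        ring
      rw [e3]
      have e4 := dd_nsm (133 * (j - i)) v
      rw [e4, ← hkk]
      have e5 : 1 ≤ j - i := by omega
      nlinarith
    intro i _ j _ hij
    rcases lt_or_gt_of_ne hij with h | h
    · exact key i j h
    · rw [dd_comm]
      exact key j i h
  have hddc : ∀ i, dd (c i) (c i + v) ≤ k := by
    intro i
    have e1 := dd_add 0 v (c i)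
    rw [zero_add, add_comm v] at e1
    rw [e1, hkk]
  -- the two events
  have q1 : nu.real {w : Ed → ℝ | TB (pw w) (66 * k) 0 v ∈ Set.Ioi m} ≤ 3 / 4 := by
    have e1 : {w : Ed → ℝ | TB (pw w) (66 * k) 0 v ∈ Set.Ioi m} ⊆
        {w | m < TT (pw w) 0 v} ∪ {w | TT (pw w) 0 v < TB (pw w) (66 * k) 0 v} := by
      intro w hw
      by_cases h : TT (pw w) 0 v < TB (pw w) (66 * k) 0 v
      · exact Or.inr h
      · left
        exact lt_of_lt_of_le (show m < TB (pw w) (66 * k) 0 v from hw) (not_lt.1 h)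
    have e2 := local_le (x := 0) (y := v) (m := k) hkk.ge
    have e3 : ((1:ℝ) / 2) ^ k ≤ (1 / 2) ^ 3 := pow_le_pow_of_le_one (by norm_num) (by norm_num) hk
    have e4 := (measureReal_mono e1 (measure_ne_top nu _)).trans (measureReal_union_le _ _)
    norm_num at e3
    linarith
  have q2 : nu.real {w : Ed → ℝ | TB (pw w) (66 * k) 0 v ∈ Set.Iio m} ≤ 1 / 2 := by
    refine le_trans (measureReal_mono ?_ (measure_ne_top nu _)) h1
    intro w hw
    have e1 := TT_le_TB (pw_nonneg w) (R := 66 * k) (x := 0) (y := v) (by omega)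
    exact lt_of_le_of_lt e1 hw
  have r1 := indep_set J k v (measurableSet_Ioi (a := m)) c hc
  have r2 := indep_set J k v (measurableSet_Iio (a := m)) c hc
  set A2 : Set (Ed → ℝ) := ⋃ i ∈ range J, {w | TT (pw w) (c i) (c i + v) <
    TB (pw w) (66 * k) (c i) (c i + v)} with hA2
  have hA2le : nu.real A2 ≤ J * (2 * (1 / 2) ^ k) := by
    calc nu.real A2 ≤ ∑ i ∈ range J, nu.real {w | TT (pw w) (c i) (c i + v) <
        TB (pw w) (66 * k) (c i) (c i + v)} := measureReal_biUnion_finset_le _ _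
      _ ≤ ∑ _i ∈ range J, (2 * (1 / 2 : ℝ) ^ k) := Finset.sum_le_sum fun i _ => local_le (hddc i)
      _ = _ := by rw [Finset.sum_const, Finset.card_range, nsmul_eq_mul]
  have hsub : {w : Ed → ℝ | BS (pw w) n s ∧ 133 * (J:ℝ) * s < |TT (pw w) x (x + v) - m|} ⊆
      {w | ∀ i ∈ range J, TB (pw w) (66 * k) (c i) (c i + v) ∈ Set.Ioi m} ∪
      ({w | ∀ i ∈ range J, TB (pw w) (66 * k) (c i) (c i + v) ∈ Set.Iio m} ∪ A2) := by
    rintro w ⟨hB, hlt⟩
    have hai : ∀ i ∈ range J, |TT (pw w) x (x + v) - TT (pw w) (c i) (c i + v)| ≤ 133 * (J:ℝ) * s := by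
      intro i hi
      have hiJ : i < J := Finset.mem_range.1 hi
      have e1 := htel w hB (133 * i) (by omega)
      refine e1.trans ?_
      have e2 : ((133 * i : ℕ) : ℝ) ≤ 133 * J := by
        push_cast
        have : (i:ℝ) ≤ J := by exact_mod_cast hiJ.le
        linarith
      exact mul_le_mul_of_nonneg_right e2 hs
    rcases lt_abs.1 hlt with h | h
    · left
      intro i hi
      have e1 := abs_le.1 (hai i hi)
      have e2 := TT_le_TB (pw_nonneg w) (R := 66 * k) (x := c i) (y := c i + v)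
        ((hddc i).trans (by omega))
      show m < TB (pw w) (66 * k) (c i) (c i + v)
      linarith [e1.1, e1.2]
    · right
      by_cases h2 : w ∈ A2
      · exact Or.inr h2
      · left
        intro i hi
        simp only [hA2, Set.mem_iUnion, Set.mem_ofPred_eq, exists_prop, not_exists, not_and,
          not_lt] at h2
        have e0 := h2 i hi
        have e1 := abs_le.1 (hai i hi)
        show TB (pw w) (66 * k) (c i) (c i + v) < m
        linarith [e1.1, e1.2]
  refine (measureReal_mono hsub (measure_ne_top nu _)).trans ((measureReal_union_le _ _).trans ?_)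
  have u1 := measureReal_union_le (μ := nu)
    {w | ∀ i ∈ range J, TB (pw w) (66 * k) (c i) (c i + v) ∈ Set.Iio m} A2
  rw [r2] at u1
  rw [r1]
  have p1 : (nu.real {w : Ed → ℝ | TB (pw w) (66 * k) 0 v ∈ Set.Ioi m}) ^ J ≤ (3 / 4) ^ J :=
    pow_le_pow_left₀ measureReal_nonneg q1 J
  have p2 : (nu.real {w : Ed → ℝ | TB (pw w) (66 * k) 0 v ∈ Set.Iio m}) ^ J ≤ (3 / 4) ^ J :=
    pow_le_pow_left₀ measureReal_nonneg (q2.trans (by norm_num)) J
  have p3 : (J:ℝ) * (2 * (1 / 2) ^ k) ≤ 4 * J * (1 / 2) ^ k := by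
    have : (0:ℝ) ≤ J * (1 / 2) ^ k := by positivity
    linarith
  linarith

end Pool.Agent.H69.SY
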